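import Mathlib
import Pool.Agent.LibPtt90.Main
import Pool.Agent.LibComp86.Final

/-!
Polynomial-time truth-table reducibility of the halting problem (of all recursively enumerable
sets, of all computable sets) to the set of strings that are random for plain complexity: the
answer depends on the universal machine.
-/

namespace Pool.Agent.Results.MP_8427ed_lc.BothForms

open Pool.Agent.LibComplexity Pool.Agent.LibRandTT Pool.Agent.LibPtt90

/-- For some universal machine `U`, every recursively enumerable set is polynomial-time truth-table
reducible to the set of random strings of `U`. For some other universal machine `U`, some computable
set is not polynomial-time truth-table reducible to the set of random strings of `U`, and neither is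
any set to which the halting set is polynomial-time many-one reducible. -/
theorem result :
    (∃ U : List Bool →. List Bool, Universal U ∧
      ∀ A : Set (List Bool), (REPred fun x => x ∈ A) → PttRed A (RC U)) ∧
    (∃ U : List Bool →. List Bool, Universal U ∧
      (∃ A : Set (List Bool), (ComputablePred fun x => x ∈ A) ∧ ¬ PttRed A (RC U)) ∧
      ∀ A : Set (List Bool), PolyRed Halt A → ¬ PttRed A (RC U)) :=
  ⟨exists_ptt_all, Pool.Agent.LibComp86.exists_computable_not_ptt⟩

end Pool.Agent.Results.MP_8427ed_lc.BothForms
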