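import Mathlib
import Pool.Agent.LibRandTT.Defs
import Pool.Agent.LibRandTT.Main

/-!
There is a universal machine `U` such that every truth-table reduction of the halting set to the
set of random strings of `U` asks exponentially many queries infinitely often; in particular there
is no polynomial-time truth-table reduction.
-/

namespace Pool.Agent.Results.MP_8427ed_lc.ManyQueries

open Pool.Agent.LibRandTT

/-- For some universal machine `U`, every truth-table reduction of the halting set to the random
strings of `U` makes at least `c * 2 ^ (|x| / 2)` queries on arbitrarily long inputs `x`. -/
theorem result : ∃ U : List Bool →. List Bool, Universal U ∧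
    ∀ (q : List Bool → List (List Bool)) (g : List Bool → List Bool → Bool),
      TTReduction q g Halt (RC U) →
      ∃ C : ℕ, ∀ n₀ : ℕ, ∃ x : List Bool, n₀ ≤ x.length ∧
        2 ^ x.length ≤ C * (q x).length ^ 2 :=
  main

end Pool.Agent.Results.MP_8427ed_lc.ManyQueries
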